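import Mathlib

/-!
# Project RG (MP_4d33fe_pr): upper bound for the metric dimension of the random geometric graph.
Common definitions.
-/

set_option autoImplicit false

namespace Pool.Agent.Helper59.RG

open MeasureTheory Set
open scoped ENNReal

noncomputable section

/-- the plane -/
abbrev E := ℝ × ℝ

/-- Euclidean norm on `ℝ × ℝ` -/
def nm (x : E) : ℝ := √(x.1 ^ 2 + x.2 ^ 2)

/-- slope -/
def sl (x : E) : ℝ := x.2 / x.1

/-- indicator of a proposition -/
def ind (p : Prop) : ℝ≥0∞ := @ite _ p (Classical.propDecidable p) 1 0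

/-- the points of the configuration `C` in `W` (with multiplicity) -/
def flt (W : Set E) (C : Multiset E) : Multiset E :=
  @Multiset.filter E (fun x => x ∈ W) (fun _ => Classical.propDecidable _) C

/-- remove one copy of a point -/
def ers (C : Multiset E) (s : E) : Multiset E := @Multiset.erase E (Classical.decEq E) C s

/-- the configuration of a family of points -/
def ms {N : ℕ} (X : Fin N → E) : Multiset E := Multiset.map X Finset.univ.val

/-- measurable functionals of configurations -/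
def Mf (F : Multiset E → ℝ≥0∞) : Prop := ∀ N : ℕ, Measurable fun X : Fin N → E => F (ms X)

/-- jointly measurable functionals -/
def Mj {β : Type} [MeasurableSpace β] (F : β → Multiset E → ℝ≥0∞) : Prop :=
  ∀ N : ℕ, Measurable fun p : β × (Fin N → E) => F p.1 (ms p.2)

/-- iterated integral of a functional over `N` independent points -/
def II (μ : Measure E) : ℕ → (Multiset E → ℝ≥0∞) → ℝ≥0∞
  | 0, F => F 0
  | (N + 1), F => ∫⁻ x, II μ N (fun C => F (x ::ₘ C)) ∂μ

/-- expectation for a Poisson process: a Poisson(`l`) number of independent points of law `μ` -/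
def PE (l : ℝ) (μ : Measure E) (F : Multiset E → ℝ≥0∞) : ℝ≥0∞ :=
  ∑' N : ℕ, ENNReal.ofReal (Real.exp (-l) * l ^ N / N.factorial) * II μ N F

/-- partition function -/
def Zf (l : ℝ) (ν : Measure E) (F : Multiset E → ℝ≥0∞) : ℝ≥0∞ :=
  ∑' k : ℕ, ENNReal.ofReal (l ^ k / k.factorial) * II ν k F

/-- the square -/
def Sq (Λ : ℝ) : Set E := Icc 0 Λ ×ˢ Icc 0 Λ

/-- uniform distribution on the square -/
def mu (Λ : ℝ) : Measure E := ENNReal.ofReal (1 / Λ ^ 2) • volume.restrict (Sq Λ)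

/-- `Rch r z W C k s`: the point `s` can be reached from `z` in `k + 1` steps of length at most `r`;
the `k` intermediate points belong to `C` and to `W` -/
def Rch (r : ℝ) (z : E) (W : Set E) (C : Multiset E) : ℕ → E → Prop
  | 0, s => nm (s - z) ≤ r
  | (k + 1), s => ∃ y ∈ C, y ∈ W ∧ Rch r z W C k y ∧ nm (s - y) ≤ r

/-- number of `k < K` with `Rch r z W C k s` -/
def NN (r : ℝ) (z : E) (W : Set E) (K : ℕ) (C : Multiset E) (s : E) : ℝ≥0∞ :=
  ∑ k ∈ Finset.range K, ind (Rch r z W C k s)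

/-- sum of `NN` over the points in `B` -/
def SN (r : ℝ) (z : E) (W : Set E) (K : ℕ) (B : Set E) (C : Multiset E) : ℝ≥0∞ :=
  ((flt B C).map (NN r z W K C)).sum

/-- translate of a set -/
def tr (z : E) (B : Set E) : Set E := {x | x - z ∈ B}

/-- points close to the direction from `z` to `s` -/
def Nar (r θ : ℝ) (z s : E) : Set E :=
  {y | r / 3 ≤ (y - z).1 ∧ nm (y - z) ≤ nm (s - z) ∧ |sl (y - z) - sl (s - z)| ≤ θ}

/-- the parallelogram around the point with index `m` of `q` on the segment from `z` to `s` -/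
def Pm (r h : ℝ) (z s : E) (q m : ℕ) : Set E :=
  {x | |x.2 - (z.2 + m / q * (s - z).2)| ≤ √(r * h / 2) / 3 ∧
    |(x.1 - (z.1 + m / q * (s - z).1)) + sl (s - z) * (x.2 - (z.2 + m / q * (s - z).2))| ≤ h / 4}

/-- the point `s` distinguishes `x` and `y` -/
def SepC (r : ℝ) (K : ℕ) (x y : E) (C : Multiset E) (s : E) : Prop :=
  ∃ k < K, (Rch r x univ C k s ∧ ¬ Rch r y univ C k s) ∨ (Rch r y univ C k s ∧ ¬ Rch r x univ C k s)

/-- number of points of `C` which distinguish `x` and `y` -/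
def nsep (r : ℝ) (K : ℕ) (x y : E) (C : Multiset E) : ℕ := (flt {s | SepC r K x y C s} C).card

/-- context: radius, loss, scale, number of steps, the two base points -/
structure Cx where
  r : ℝ
  h : ℝ
  R : ℝ
  K : ℕ
  u : E
  v : E

namespace Cx

variable (c : Cx)

def rho : ℝ := nm (c.u - c.v)
def th : ℝ := 2 * √(c.K * c.h / c.r)
/-- margin of the sectors -/
def mg : ℝ := c.th + 8 * c.rho / c.r
/-- width of the sectors -/
def De : ℝ := 3 * c.mg
/-- the target square relative to the base point -/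
def A0 : Set E := Icc c.R (11 / 10 * c.R) ×ˢ Icc (3 / 10 * c.R) (4 / 10 * c.R)
def A : Set E := tr c.u c.A0
def Cn : Set E :=
  {s | c.r / 3 ≤ (s - c.u).1 ∧ 1 / 4 ≤ sl (s - c.u) ∧ sl (s - c.u) ≤ 1 / 2 ∧
    nm (s - c.u) ≤ 6 / 5 * c.R}
/-- the cone relative to the base point -/
def Co : Set E := {x | 0 < x.1 ∧ x.1 ≤ 13 / 10 * c.R ∧ x.1 / 4 ≤ x.2 ∧ x.2 ≤ x.1 / 2}
/-- extended sector -/
def W (j : ℕ) : Set E :=
  {x | 0 < (x - c.u).1 ∧ 1 / 4 + j * c.De - c.mg ≤ sl (x - c.u) ∧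
    sl (x - c.u) < 1 / 4 + (j + 1) * c.De + c.mg}
/-- the part of the target square in a sector -/
def Aj (j : ℕ) : Set E :=
  {s | s ∈ c.A ∧ 1 / 4 + j * c.De ≤ sl (s - c.u) ∧ sl (s - c.u) < 1 / 4 + (j + 1) * c.De}
/-- number of sectors -/
def J : ℕ := ⌈1 / c.De⌉₊
/-- number of points of a sector which are seen to be separated inside the extended sector -/
def T (j : ℕ) (C : Multiset E) : ℕ :=
  (flt {s | s ∈ c.Aj j ∧ ∃ k < c.K, Rch c.r c.u (c.W j) C k s ∧ ¬ Rch c.r c.v (c.W j) C k s} C).card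
/-- straight paths exist -/
def TP (C : Multiset E) : Prop :=
  ∀ s ∈ C, s ∈ c.Cn → ∀ z, (z = c.u ∨ z = c.v) → ∀ k < c.K,
    nm (s - z) ≤ (k + 1) * (c.r - c.h) → Rch c.r z (Nar c.r c.th z s) C k s
def Good (M : ℕ) (C : Multiset E) : Prop := c.TP C ∧ ∀ j < c.J, c.T j C ≤ M
/-- the points near the boundary of a ball -/
def Fr : Set E :=
  {s | s ∈ c.A ∧ ∃ k < c.K, (k + 1) * (c.r - c.h) - c.rho < nm (s - c.u) ∧
    nm (s - c.u) ≤ (k + 1) * c.r}
/-- the lune -/
def Lu : Set E := {x | nm (x - c.u) ≤ c.r ∧ c.r < nm (x - c.v)}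

/-- conditions on the context -/
structure Ok (Λ : ℝ) : Prop where
  hr : 0 < c.r
  hh : 0 < c.h
  hR : 500 * c.r ≤ c.R
  hK : c.K = ⌈2 * c.R / c.r⌉₊
  hmg : c.mg ≤ 1 / 50
  u1 : 0 ≤ c.u.1
  u2 : 0 ≤ c.u.2
  v1 : 0 ≤ c.v.1
  v2 : 0 ≤ c.v.2
  u1' : c.u.1 + 13 / 10 * c.R ≤ Λ
  u2' : c.u.2 + 7 / 10 * c.R ≤ Λ
  v2' : c.v.2 + 7 / 10 * c.R ≤ Λ
  tau : |c.u.2 - c.v.2| ≤ c.u.1 - c.v.1
  tau0 : 0 < c.u.1 - c.v.1

end Cx

end

end Pool.Agent.Helper59.RG
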