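import Pool.Agent.Helper59.RG.Defs

/-!
# Project RG (MP_4d33fe_pr): statements of the pieces.
-/

set_option autoImplicit false

namespace Pool.Agent.Helper59.RG

open MeasureTheory Set
open scoped ENNReal

noncomputable section

/-! ### P: calculus of Poisson expectations -/

/-- closure properties of measurable functionals -/
def P0 : Prop :=
  (∀ (W : Set E) (f : Multiset E → ℝ≥0∞), MeasurableSet W → Mf f → Mf fun C => f (flt W C)) ∧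
  (∀ f : Multiset E → ℝ≥0∞, Mf f → Mj fun (x : E) (C : Multiset E) => f (x ::ₘ C)) ∧
  (∀ (β : Type) [MeasurableSpace β] (F : β → Multiset E → ℝ≥0∞), Mj F →
    (∀ b, Mf (F b)) ∧ Mj fun (p : β × E) (C : Multiset E) => F p.1 (p.2 ::ₘ C)) ∧
  (∀ W : Set E, MeasurableSet W → Mf fun C => ((flt W C).card : ℝ≥0∞)) ∧
  (∀ (W : Set E) (g : E → ℝ≥0∞), MeasurableSet W → Measurable g →
    Mf fun C => ((flt W C).map g).sum)

/-- measurable dependence on parameters -/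
def P2 : Prop := ∀ (β : Type) [MeasurableSpace β] (μ : Measure E) [IsFiniteMeasure μ]
  (F : β → Multiset E → ℝ≥0∞), Mj F →
  (∀ N : ℕ, Measurable fun b => II μ N (F b)) ∧ ∀ l : ℝ, Measurable fun b => PE l μ (F b)

/-- the iterated integral is an integral with respect to the product measure -/
def P1 : Prop := ∀ (μ : Measure E) [IsFiniteMeasure μ] (N : ℕ) (F : Multiset E → ℝ≥0∞), Mf F →
  II μ N F = ∫⁻ X, F (ms X) ∂(Measure.pi fun _ : Fin N => μ)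

/-- monotonicity and linearity -/
def P3 : Prop := ∀ (l : ℝ) (μ : Measure E) [IsFiniteMeasure μ],
  (∀ F G : Multiset E → ℝ≥0∞, (∀ C, F C ≤ G C) → PE l μ F ≤ PE l μ G) ∧
  (∀ F G : Multiset E → ℝ≥0∞, Mf F → PE l μ (fun C => F C + G C) = PE l μ F + PE l μ G) ∧
  (∀ (a : ℝ≥0∞) (F : Multiset E → ℝ≥0∞), a ≠ ⊤ → PE l μ (fun C => a * F C) = a * PE l μ F) ∧
  (∀ (S : Finset ℕ) (F : ℕ → Multiset E → ℝ≥0∞), (∀ j ∈ S, Mf (F j)) →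
    PE l μ (fun C => ∑ j ∈ S, F j C) = ∑ j ∈ S, PE l μ (F j)) ∧
  (0 ≤ l → μ univ = 1 → PE l μ (fun _ => 1) = 1)

/-- factorisation -/
def P4 : Prop := ∀ (l : ℝ) (μ : Measure E) [IsFiniteMeasure μ] (W : Set E)
  (f g : Multiset E → ℝ≥0∞), 0 ≤ l → MeasurableSet W → Mf f → Mf g →
  PE l μ (fun C => f (flt W C) * g (flt Wᶜ C)) =
    ENNReal.ofReal (Real.exp (-l)) * Zf l (μ.restrict W) f * Zf l (μ.restrict Wᶜ) g

/-- functionals which depend on a part of the configuration -/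
def P5 : Prop := ∀ (l : ℝ) (μ : Measure E) [IsProbabilityMeasure μ] (W : Set E)
  (f : Multiset E → ℝ≥0∞), 0 ≤ l → MeasurableSet W → Mf f →
  PE l μ (fun C => f (flt W C)) =
    ENNReal.ofReal (Real.exp (-(l * (μ W).toReal))) * Zf l (μ.restrict W) f

/-- independence -/
def P6 : Prop := ∀ (l : ℝ) (μ : Measure E) [IsProbabilityMeasure μ] (W : Set E)
  (f g : Multiset E → ℝ≥0∞), 0 ≤ l → MeasurableSet W → Mf f → Mf g →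
  PE l μ (fun C => f (flt W C) * g (flt Wᶜ C)) =
    PE l μ (fun C => f (flt W C)) * PE l μ (fun C => g (flt Wᶜ C))

/-- independence for several sets -/
def P7 : Prop := ∀ (l : ℝ) (μ : Measure E) [IsProbabilityMeasure μ] (S : Finset ℕ)
  (W : ℕ → Set E) (g : ℕ → Multiset E → ℝ≥0∞), 0 ≤ l → (∀ j ∈ S, MeasurableSet (W j)) →
  (∀ i ∈ S, ∀ j ∈ S, i ≠ j → Disjoint (W i) (W j)) → (∀ j ∈ S, Mf (g j)) →
  PE l μ (fun C => ∏ j ∈ S, g j (flt (W j) C)) = ∏ j ∈ S, PE l μ (fun C => g j (flt (W j) C))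

/-- the number of points in a set is Poisson distributed -/
def P8 : Prop := ∀ (l : ℝ) (μ : Measure E) [IsProbabilityMeasure μ] (W : Set E) (t : ℝ),
  0 ≤ l → 0 ≤ t → MeasurableSet W →
  PE l μ (fun C => ENNReal.ofReal t ^ (flt W C).card) =
    ENNReal.ofReal (Real.exp ((t - 1) * (l * (μ W).toReal)))

/-- Mecke formula -/
def P9 : Prop := ∀ (l : ℝ) (μ : Measure E) [IsFiniteMeasure μ] (φ : E → Multiset E → ℝ≥0∞),
  0 ≤ l → Mj φ →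
  PE l μ (fun C => (C.map fun s => φ s (ers C s)).sum) =
    ENNReal.ofReal l * ∫⁻ s, PE l μ (φ s) ∂μ

/-- Campbell formula -/
def P10 : Prop := ∀ (l : ℝ) (μ : Measure E) [IsProbabilityMeasure μ] (B : Set E) (g : E → ℝ≥0∞),
  0 ≤ l → MeasurableSet B → Measurable g →
  PE l μ (fun C => ((flt B C).map g).sum) = ENNReal.ofReal l * ∫⁻ x in B, g x ∂μ

/-- second moment of the number of points -/
def P11 : Prop := ∀ (l : ℝ) (μ : Measure E) [IsProbabilityMeasure μ], 0 ≤ l →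
  PE l μ (fun C => (C.card : ℝ≥0∞) ^ 2) = ENNReal.ofReal (l ^ 2 + l)

/-- from the Poisson process to a fixed number of points -/
def P12 : Prop := ∀ (N : ℕ) (μ : Measure E) (F : Multiset E → ℝ≥0∞), 1 ≤ N →
  II μ N F ≤ ENNReal.ofReal (3 * N) * PE N μ F

/-- translation of functionals which depend on a part of the configuration -/
def P13 : Prop := ∀ (l Λ : ℝ) (W : Set E) (τ : E) (f : Multiset E → ℝ≥0∞), 0 ≤ l → 0 < Λ →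
  MeasurableSet W → W ⊆ Sq Λ → tr τ W ⊆ Sq Λ → Mf f →
  PE l (mu Λ) (fun C => f (flt W C)) =
    PE l (mu Λ) (fun C => f ((flt (tr τ W) C).map fun x => x - τ))

/-- the uniform distribution -/
def P15 : Prop := ∀ Λ : ℝ, 0 < Λ → IsProbabilityMeasure (mu Λ) ∧
  ∀ B : Set E, MeasurableSet B → mu Λ B = ENNReal.ofReal (1 / Λ ^ 2) * volume (B ∩ Sq Λ)

/-! ### R: the relation `Rch` -/

/-- elementary properties -/
def R1 : Prop :=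
  (∀ (r : ℝ) (z s : E) (W W' : Set E) (C C' : Multiset E) (k : ℕ),
    (∀ y ∈ C, y ∈ W → y ∈ C' ∧ y ∈ W') → Rch r z W C k s → Rch r z W' C' k s) ∧
  (∀ (r : ℝ) (z s : E) (W : Set E) (C : Multiset E) (k : ℕ),
    Rch r z W C k s ↔ Rch r z W (flt W C) k s) ∧
  (∀ (r : ℝ) (z s : E) (W : Set E) (C : Multiset E) (k k' : ℕ), 0 ≤ r → s ∈ C → s ∈ W → k ≤ k' →
    Rch r z W C k s → Rch r z W C k' s) ∧
  (∀ (r : ℝ) (z s : E) (W : Set E) (C : Multiset E) (k : ℕ), Rch r z W C k s →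
    nm (s - z) ≤ (k + 1) * r)

/-- isometries -/
def R3 : Prop := ∀ (g : E → E) (r : ℝ) (z s : E) (W W' : Set E) (C : Multiset E) (k : ℕ),
  (∀ x y, nm (g x - g y) = nm (x - y)) → (∀ y ∈ C, g y ∈ W' ↔ y ∈ W) →
  (Rch r (g z) W' (C.map g) k (g s) ↔ Rch r z W C k s)

/-- measurability -/
def R2 : Prop := ∀ (r : ℝ) (W : Set E) (k N : ℕ), MeasurableSet W →
  MeasurableSet {p : (E × E) × (Fin N → E) | Rch r p.1.1 W (ms p.2) k p.1.2}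

/-- measurability of the functionals -/
def R4 : Prop :=
  (∀ (r : ℝ) (z : E) (W B : Set E) (K : ℕ), MeasurableSet W → MeasurableSet B →
    Mf (SN r z W K B)) ∧
  (∀ (c : Cx) (j M : ℕ), Mf fun C => ((min (c.T j C) M : ℕ) : ℝ≥0∞)) ∧
  (∀ (r : ℝ) (K Kc : ℕ), Mj fun (p : E × E) (C : Multiset E) => ind (nsep r K p.1 p.2 C < Kc))

/-- the count in a sector depends on the extended sector only -/
def R5 : Prop := ∀ (c : Cx) (Λ : ℝ) (j : ℕ) (C : Multiset E), c.Ok Λ →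
  c.T j C = c.T j (flt (c.W j) C)

/-! ### G: plane geometry -/

/-- triangle inequality and homogeneity -/
def G0 : Prop := (∀ x y : E, nm (x + y) ≤ nm x + nm y) ∧ (∀ x y : E, nm (x - y) = nm (y - x)) ∧
  (∀ x : E, |x.1| ≤ nm x ∧ |x.2| ≤ nm x ∧ 0 ≤ nm x ∧ nm x ^ 2 = x.1 ^ 2 + x.2 ^ 2) ∧
  (∀ (a : ℝ) (x : E), nm (a • x) = |a| * nm x) ∧
  ∀ x y : E, x.1 * y.1 + x.2 * y.2 ≤ nm x * nm y

/-- long paths are narrow -/
def G1 : Prop := ∀ (r h : ℝ) (K k : ℕ) (z s : E) (C : Multiset E), 0 < r → 0 < h →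
  (K : ℝ) * h ≤ r / 10000 → k < K → 0 < (s - z).1 → 1 / 5 ≤ sl (s - z) → sl (s - z) ≤ 3 / 5 →
  ((k : ℝ) + 1) * (r - h) ≤ nm (s - z) → Rch r z univ C k s →
  Rch r z (Nar r (2 * √(K * h / r)) z s) C k s

/-- straight paths -/
def G2 : Prop := ∀ (r h : ℝ) (K k : ℕ) (z s : E) (C : Multiset E), 0 < r → 0 < h →
  (K : ℝ) * h ≤ r / 10000 → k < K → r / 3 ≤ (s - z).1 → 1 / 5 ≤ sl (s - z) →
  sl (s - z) ≤ 3 / 5 → s ∈ C → nm (s - z) ≤ ((k : ℝ) + 1) * (r - h) →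
  (∀ m : ℕ, 1 ≤ m → m < ⌈nm (s - z) / (r - h)⌉₊ →
    ∃ y ∈ C, y ∈ Pm r h z s ⌈nm (s - z) / (r - h)⌉₊ m) →
  Rch r z (Nar r (2 * √(K * h / r)) z s) C k s

/-- the parallelograms -/
def G3 : Prop :=
  (∀ (r h : ℝ) (q m : ℕ), 0 < r → 0 < h →
    MeasurableSet {p : (E × E) × E | p.2 ∈ Pm r h p.1.1 p.1.2 q m}) ∧
  (∀ (r h : ℝ) (z s : E) (q m : ℕ), 0 < r → 0 < h →
    volume (Pm r h z s q m) = ENNReal.ofReal (h * √(r * h / 2) / 3)) ∧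
  (∀ (r h : ℝ) (z s : E) (m : ℕ), 0 < r → 0 < h → h ≤ r / 10000 → r / 3 ≤ (s - z).1 →
    1 / 5 ≤ sl (s - z) → sl (s - z) ≤ 3 / 5 → 1 ≤ m → m < ⌈nm (s - z) / (r - h)⌉₊ →
    Pm r h z s ⌈nm (s - z) / (r - h)⌉₊ m ⊆ Icc z.1 s.1 ×ˢ Icc z.2 s.2 ∧
    s ∉ Pm r h z s ⌈nm (s - z) / (r - h)⌉₊ m)

/-- the regions -/
def G4 : Prop := ∀ (c : Cx) (Λ : ℝ), c.Ok Λ →
  c.A ⊆ c.Cn ∧
  (∀ s ∈ c.Cn, ∀ z, (z = c.u ∨ z = c.v) → c.r / 3 ≤ (s - z).1 ∧ 1 / 5 ≤ sl (s - z) ∧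
    sl (s - z) ≤ 3 / 5) ∧
  (∀ j : ℕ, ∀ s ∈ c.Aj j, ∀ z, (z = c.u ∨ z = c.v) → Nar c.r c.th z s ⊆ c.W j) ∧
  (∀ s ∈ c.A, ∀ z, (z = c.u ∨ z = c.v) → Nar c.r c.th z s ⊆ tr z c.Co ∧
    s ∈ Nar c.r c.th z s ∧ nm (s - z) ≤ c.K * (c.r - c.h)) ∧
  (∀ s ∈ c.A, Nar c.r c.th c.u s ⊆ c.Cn) ∧
  (∀ z, (z = c.u ∨ z = c.v) → tr z c.Co ⊆ Sq Λ ∧ MeasurableSet (tr z c.Co)) ∧
  (∀ s ∈ c.A, ∃ j < c.J, s ∈ c.Aj j) ∧ (∀ i j : ℕ, i ≠ j → Disjoint (c.Aj i) (c.Aj j)) ∧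
  (∀ i j : ℕ, i + 2 ≤ j → Disjoint (c.W i) (c.W j)) ∧
  (∀ j : ℕ, c.Aj j ⊆ c.W j ∧ MeasurableSet (c.Aj j) ∧ MeasurableSet (c.W j)) ∧
  MeasurableSet c.A ∧ MeasurableSet c.Cn ∧ MeasurableSet c.Co ∧ MeasurableSet c.Fr ∧
  MeasurableSet c.Lu ∧ c.Cn ⊆ Sq Λ ∧ c.A0 ⊆ c.Co ∧ {x | x - (c.u - c.v) ∈ c.A0} ⊆ c.Co ∧
  0 < c.rho ∧ c.rho ≤ c.r / 400 ∧ (c.K : ℝ) * c.h ≤ c.r / 10000 ∧ (c.K : ℝ) ≤ 21 / 10 * (c.R / c.r)

/-- areas in sectors -/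
def G5 : Prop := ∀ a b d1 d2 : ℝ, 0 ≤ a → a ≤ b → 0 ≤ d1 → d1 ≤ d2 →
  volume {x : E | 0 < x.1 ∧ a ≤ sl x ∧ sl x ≤ b ∧ d1 < nm x ∧ nm x ≤ d2} ≤
    ENNReal.ofReal ((b - a) * (d2 ^ 2 - d1 ^ 2) / 2) ∧
  ENNReal.ofReal (99 / 1000 * (d2 ^ 2 - d1 ^ 2)) ≤
    volume {x : E | 0 < x.1 ∧ 1 / 4 ≤ sl x ∧ sl x ≤ 1 / 2 ∧ d1 < nm x ∧ nm x ≤ d2}

/-- gain by a translation of the target square -/
def G6 : Prop := ∀ (c : Cx) (Λ : ℝ), c.Ok Λ →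
  17 / 5000 * (c.rho * c.R ^ 2 / c.r) ≤
    (∫ x in c.A \ tr (c.u - c.v) c.A, ((c.K : ℝ) - nm (x - c.u) / (c.r - c.h))) -
      ∫ x in tr (c.u - c.v) c.A \ c.A, ((c.K : ℝ) + 1 - nm (x - c.u) / c.r)

/-- chaining: a separated point has a first vertex in the lune in nearly the same direction -/
def G7 : Prop := ∀ (c : Cx) (Λ : ℝ) (C : Multiset E) (k : ℕ) (s : E), c.Ok Λ → c.TP C → s ∈ C →
  s ∈ c.A → k < c.K → Rch c.r c.u univ C k s → ¬ Rch c.r c.v univ C k s →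
  ∃ w ∈ C, w ∈ c.Lu ∧ w ∈ Nar c.r c.th c.u s ∧
    |sl (s - c.u) - sl (w - c.u)| ≤ Nat.clog 2 (c.K + 1) * (2 * √((2 * c.h + c.rho) / c.r))

/-! ### A: the counting argument -/

/-- on good configurations all notions of paths agree -/
def A0 : Prop := ∀ (c : Cx) (Λ : ℝ) (C : Multiset E) (s z : E) (k j : ℕ), c.Ok Λ → c.TP C →
  s ∈ C → s ∈ c.Aj j → (z = c.u ∨ z = c.v) → k < c.K →
  (Rch c.r z univ C k s ↔ Rch c.r z (c.W j) C k s) ∧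
  (Rch c.r z univ C k s ↔ Rch c.r z (tr z c.Co) C k s)

/-- separated points are near the boundary of a ball -/
def A01 : Prop := ∀ (c : Cx) (Λ : ℝ) (C : Multiset E) (s : E) (k : ℕ), c.Ok Λ → c.TP C →
  s ∈ C → s ∈ c.A → k < c.K → Rch c.r c.u univ C k s → ¬ Rch c.r c.v univ C k s → s ∈ c.Fr

/-- pointwise inequality -/
def A1 : Prop := ∀ (c : Cx) (Λ : ℝ) (M : ℕ) (C : Multiset E), c.Ok Λ →
  SN c.r c.u (tr c.u c.Co) c.K c.A C ≤ SN c.r c.v (tr c.v c.Co) c.K c.A C +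
    ∑ j ∈ Finset.range c.J, ((min (c.T j C) M : ℕ) : ℝ≥0∞) +
    ind (¬ c.Good M C) * (c.K * C.card)

/-- translation invariance -/
def A2 : Prop := ∀ (c : Cx) (Λ l : ℝ) (B : Set E), c.Ok Λ → 0 ≤ l → MeasurableSet B →
  B ⊆ c.Co →
  PE l (mu Λ) (SN c.r c.v (tr c.v c.Co) c.K (tr c.v B)) =
    PE l (mu Λ) (SN c.r c.u (tr c.u c.Co) c.K (tr c.u B))

/-- bounds for the number of admissible numbers of steps -/
def A3 : Prop :=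
  (∀ (r : ℝ) (z s : E) (W : Set E) (K : ℕ) (C : Multiset E), 0 < r → nm (s - z) ≤ K * r →
    NN r z W K C s ≤ ENNReal.ofReal (K + 1 - nm (s - z) / r)) ∧
  ∀ (c : Cx) (Λ : ℝ) (C : Multiset E) (s : E), c.Ok Λ → c.TP C → s ∈ C → s ∈ c.A →
    ENNReal.ofReal (c.K - nm (s - c.u) / (c.r - c.h)) ≤ NN c.r c.u (tr c.u c.Co) c.K C s

/-- lower bound for the expected number of separated points -/
def A5 : Prop := ∀ (c : Cx) (Λ l : ℝ) (M : ℕ), c.Ok Λ → Λ ^ 2 / 2 ≤ l → l ≤ Λ ^ 2 →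
  (c.K : ℝ) ≤ Λ ^ 2 → 1000 ≤ Λ ^ 2 → 1 ≤ c.rho * c.R ^ 2 / c.r →
  PE l (mu Λ) (fun C => ind (¬ c.Good M C)) ≤ ENNReal.ofReal ((1 / Λ ^ 2) ^ 15) →
  ENNReal.ofReal (7 / 5000 * (c.rho * c.R ^ 2 / c.r)) ≤
    PE l (mu Λ) (fun C => ∑ j ∈ Finset.range c.J, ((min (c.T j C) M : ℕ) : ℝ≥0∞))

/-- Chernoff bound -/
def A4 : Prop := ∀ (c : Cx) (Λ l Θ : ℝ) (M Kc : ℕ), c.Ok Λ → 0 ≤ l → 1 ≤ M → 0 ≤ Θ →
  ENNReal.ofReal Θ ≤
    PE l (mu Λ) (fun C => ∑ j ∈ Finset.range c.J, ((min (c.T j C) M : ℕ) : ℝ≥0∞)) →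
  PE l (mu Λ) (fun C => ind ((∑ j ∈ Finset.range c.J, min (c.T j C) M) < Kc)) ≤
    ENNReal.ofReal (Real.exp ((Kc - 3 / 10 * Θ) / M))

/-- counted points are separated -/
def A6 : Prop := ∀ (c : Cx) (Λ : ℝ) (M : ℕ) (C : Multiset E), c.Ok Λ → c.Good M C →
  (∑ j ∈ Finset.range c.J, min (c.T j C) M) ≤ nsep c.r c.K c.u c.v C

/-- straight paths exist with high probability -/
def B1 : Prop := ∀ (c : Cx) (Λ l e : ℝ), c.Ok Λ → Λ ^ 2 / 2 ≤ l → l ≤ Λ ^ 2 → 0 ≤ e →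
  40000 * e ^ 2 ≤ c.h ^ 3 * c.r →
  PE l (mu Λ) (fun C => ind (¬ c.TP C)) ≤ ENNReal.ofReal (2 * Λ ^ 2 * c.K * Real.exp (-(23 * e)))

/-- simple bound for the number of separated points in a sector -/
def B2 : Prop := ∀ (c : Cx) (Λ l e : ℝ) (M : ℕ), c.Ok Λ → 0 ≤ l → l ≤ Λ ^ 2 → 0 ≤ e →
  2 * (c.K ^ 2 * c.r * (c.K * c.h + c.rho) * c.De) + 20 * e ≤ M →
  PE l (mu Λ) (fun C => ind (¬ c.Good M C)) ≤
    PE l (mu Λ) (fun C => ind (¬ c.TP C)) + ENNReal.ofReal (c.J * Real.exp (-(20 * e)))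

/-- refined bound for the number of separated points in a sector -/
def B3 : Prop := ∀ (c : Cx) (Λ l e : ℝ) (M1 M2 : ℕ), c.Ok Λ → 0 ≤ l → l ≤ Λ ^ 2 → 0 ≤ e →
  4 * (c.De * c.rho * c.r) + 20 * e ≤ M1 →
  4 * (Nat.clog 2 (c.K + 1) * (2 * √((2 * c.h + c.rho) / c.r)) *
    (c.K ^ 2 * c.r * (c.K * c.h + c.rho))) + 20 * e ≤ M2 →
  PE l (mu Λ) (fun C => ind (¬ c.Good (M1 * M2) C)) ≤
    PE l (mu Λ) (fun C => ind (¬ c.TP C)) +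
      ENNReal.ofReal ((c.J + Λ ^ 2) * Real.exp (-(20 * e)))

end

end Pool.Agent.Helper59.RG
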