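import Pool.Agent.Helper59.RG.St
import Pool.Agent.Helper42.MD.Defs

/-!
# Project RG (MP_4d33fe_pr): statements of the pieces, second part.
-/

set_option autoImplicit false

namespace Pool.Agent.Helper59.RG

open MeasureTheory Set Filter Topology
open scoped ENNReal

noncomputable section

/-! ### L: points which are adjacent to exactly one of the two base points -/

/-- the points adjacent to `x` and not to `y` -/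
def lun (r : ℝ) (x y : E) : Set E := {s | nm (s - x) ≤ r ∧ r < nm (s - y)}

/-- area of a lune -/
def L1 : Prop := ∀ (Λ r : ℝ) (x y : E), 0 < r → x ∈ Sq Λ → y ∈ Sq Λ →
  |x.2 - y.2| ≤ x.1 - y.1 → 0 < x.1 - y.1 → x.1 + r ≤ Λ → x.2 + r ≤ Λ →
  ENNReal.ofReal (1 / 20 * (min (nm (x - y)) r * r)) ≤ volume (lun r x y ∩ Sq Λ)

/-- far points -/
def L2 : Prop := ∀ (Λ r : ℝ) (x y : E), 0 < r → 2 * r ≤ Λ → x ∈ Sq Λ → 2 * r ≤ nm (x - y) →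
  ENNReal.ofReal (49 / 100 * r ^ 2) ≤ volume (lun r x y ∩ Sq Λ)

/-- the number of points in a lune -/
def L3 : Prop := ∀ (Λ r l a : ℝ) (x y : E) (K Kc : ℕ), 0 < Λ → Λ ^ 2 / 2 ≤ l → 1 ≤ K →
  ENNReal.ofReal a ≤ volume (lun r x y ∩ Sq Λ) →
  PE l (mu Λ) (fun C => ind (nsep r K x y C < Kc)) ≤
    ENNReal.ofReal (Real.exp (Kc - 3 / 10 * a))

/-! ### S: symmetries of the square -/

/-- invariance -/
def S1 : Prop := ∀ (Λ r : ℝ) (K Kc N : ℕ) (x y : E), 0 < Λ →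
  II (mu Λ) N (fun C => ind (nsep r K y x C < Kc)) =
    II (mu Λ) N (fun C => ind (nsep r K x y C < Kc)) ∧
  II (mu Λ) N (fun C => ind (nsep r K (Λ - x.1, x.2) (Λ - y.1, y.2) C < Kc)) =
    II (mu Λ) N (fun C => ind (nsep r K x y C < Kc)) ∧
  II (mu Λ) N (fun C => ind (nsep r K (x.1, Λ - x.2) (y.1, Λ - y.2) C < Kc)) =
    II (mu Λ) N (fun C => ind (nsep r K x y C < Kc)) ∧
  II (mu Λ) N (fun C => ind (nsep r K (x.2, x.1) (y.2, y.1) C < Kc)) =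
    II (mu Λ) N (fun C => ind (nsep r K x y C < Kc))

/-- canonical position -/
def Can (Λ : ℝ) (x y : E) : Prop :=
  x ∈ Sq Λ ∧ y ∈ Sq Λ ∧ |x.2 - y.2| ≤ x.1 - y.1 ∧ 0 < x.1 - y.1 ∧ x.1 ≤ 3 / 4 * Λ ∧
    x.2 ≤ 1 / 2 * Λ

/-- reduction to pairs in canonical position -/
def S2 : Prop := ∀ (Λ : ℝ) (Φ : E → E → Prop), 0 < Λ → (∀ x y, Φ x y → Φ y x) →
  (∀ x y : E, Φ (Λ - x.1, x.2) (Λ - y.1, y.2) → Φ x y) →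
  (∀ x y : E, Φ (x.1, Λ - x.2) (y.1, Λ - y.2) → Φ x y) →
  (∀ x y : E, Φ (x.2, x.1) (y.2, y.1) → Φ x y) → (∀ x y, Can Λ x y → Φ x y) →
  (∀ x y, x ∈ Sq Λ → y ∈ Sq Λ → Λ / 2 ≤ nm (x - y) → Φ x y) →
  ∀ x y, x ∈ Sq Λ → y ∈ Sq Λ → x ≠ y → Φ x y

/-! ### N: parameters -/

/-- minimal distance -/
def ep (n : ℕ) (r : ℝ) : ℝ := max ((r / n) ^ (1 / 3 : ℝ)) (r ^ (-(3 / 5) : ℝ))

/-- relative scale -/
def Ln (n : ℕ) (r : ℝ) : ℝ :=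
  min (√n / (8 * r)) (min (ep n r * r / Real.log n ^ 6) (r ^ (4 / 9 : ℝ) / Real.log n ^ 4))

/-- loss per step -/
def hn (n : ℕ) (r : ℝ) : ℝ := (40000 * Real.log n ^ 2 / r) ^ (1 / 3 : ℝ)

/-- number of steps -/
def Kn (n : ℕ) (r : ℝ) : ℕ := ⌈2 * (Ln n r * r) / r⌉₊

/-- number of separators -/
def Kcn (n : ℕ) (r : ℝ) : ℕ := ⌊1 / 10000 * (ep n r * Ln n r ^ 2 * r)⌋₊

/-- the bound -/
def XX (n : ℕ) (r : ℝ) : ℝ :=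
  max ((n : ℝ) ^ (1 / 3 : ℝ) * r ^ (2 / 3 : ℝ)) (n * r ^ (-(6 / 5) : ℝ))

/-- the context of a pair of points -/
def cxn (n : ℕ) (r : ℝ) (x y : E) : Cx := ⟨r, hn n r, Ln n r * r, Kn n r, x, y⟩

/-- facts about the parameters -/
def N1 : Prop := ∃ n0 : ℕ, 1000 ≤ n0 ∧ ∀ n : ℕ, n0 ≤ n → ∀ r : ℝ, Real.log n ^ 60 ≤ r →
  r ≤ √n / 4000 →
  500 ≤ Ln n r ∧ Ln n r ≤ √n / (8 * r) ∧ Ln n r ≤ ep n r * r / Real.log n ^ 6 ∧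
  0 < ep n r ∧ ep n r ≤ 1 ∧
  Ln n r ^ 3 * hn n r / r ≤ 35 / Real.log n ^ 11 ∧
  Ln n r ^ 3 * ep n r ≤ r / Real.log n ^ 12 ∧
  Real.log n ^ 50 ≤ ep n r * Ln n r ^ 2 * r ∧
  1 ≤ 64 * Real.log n ^ 12 * (ep n r ^ 3 * Ln n r ^ 2 * r) ∧
  ep n r * Ln n r ^ 2 ≤ r / Real.log n ^ 8 ∧
  hn n r ^ 3 * r = 40000 * Real.log n ^ 2 ∧ 0 < hn n r ∧
  (Kn n r : ℝ) ≤ 2002 / 1000 * Ln n r ∧ 2 * Ln n r ≤ Kn n r

/-- the minimal distance and the bound -/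
def N5 : Prop := ∃ n0 : ℕ, ∀ n : ℕ, n0 ≤ n → ∀ r : ℝ, 1 ≤ r → r ≤ √n / 4 →
  n * ep n r ^ 2 = XX n r ∧ 1 ≤ XX n r ∧ 0 < ep n r ∧ ep n r ≤ 1 ∧ r / n ≤ ep n r ^ 3 ∧
  r ^ (2 / 5 : ℝ) ≤ ep n r * r ∧ (r < Real.log n ^ 60 → (n : ℝ) ≤ Real.log n ^ 72 * XX n r)

/-- the context is admissible -/
def N4 : Prop := ∃ n0 : ℕ, ∀ n : ℕ, n0 ≤ n → ∀ r : ℝ, Real.log n ^ 60 ≤ r → r ≤ √n / 4000 →
  ∀ x y, Can (√n) x y → nm (x - y) ≤ 100 * (Kcn n r + 10 * Real.log n) / r →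
  (cxn n r x y).Ok (√n) ∧ ((cxn n r x y).K : ℝ) ≤ n ∧ ((cxn n r x y).J : ℝ) ≤ n ∧
  (ep n r ≤ nm (x - y) → 40000 * Real.log n ^ 2 ≤ (cxn n r x y).h ^ 3 * (cxn n r x y).r ∧
    1 ≤ (cxn n r x y).rho * (cxn n r x y).R ^ 2 / (cxn n r x y).r ∧
    10 * Kcn n r ≤ 7 / 5000 * ((cxn n r x y).rho * (cxn n r x y).R ^ 2 / (cxn n r x y).r))

/-- the case of large distances -/
def N2 : Prop := ∃ n0 : ℕ, ∀ n : ℕ, n0 ≤ n → ∀ r : ℝ, Real.log n ^ 60 ≤ r → r ≤ √n / 4000 →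
  ∀ (x y : E) (c : Cx), c = cxn n r x y → ep n r ≤ nm (x - y) → hn n r ≤ nm (x - y) →
  nm (x - y) ≤ 100 * (Kcn n r + 10 * Real.log n) / r →
  ∃ M : ℕ, 1 ≤ M ∧ 2 * (c.K ^ 2 * c.r * (c.K * c.h + c.rho) * c.De) + 20 * Real.log n ≤ M ∧
    50 * M * Real.log n ≤ 7 / 5000 * (c.rho * c.R ^ 2 / c.r)

/-- the case of small distances -/
def N3 : Prop := ∃ n0 : ℕ, ∀ n : ℕ, n0 ≤ n → ∀ r : ℝ, Real.log n ^ 60 ≤ r → r ≤ √n / 4000 →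
  ∀ (x y : E) (c : Cx), c = cxn n r x y → ep n r ≤ nm (x - y) → nm (x - y) < hn n r →
  ∃ M1 M2 : ℕ, 1 ≤ M1 * M2 ∧ 4 * (c.De * c.rho * c.r) + 20 * Real.log n ≤ M1 ∧
    4 * (Nat.clog 2 (c.K + 1) * (2 * √((2 * c.h + c.rho) / c.r)) *
      (c.K ^ 2 * c.r * (c.K * c.h + c.rho))) + 20 * Real.log n ≤ M2 ∧
    50 * ((M1 * M2 : ℕ) : ℝ) * Real.log n ≤ 7 / 5000 * (c.rho * c.R ^ 2 / c.r)

/-! ### M: the number of separators of a pair -/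

/-- general bound -/
def M1 : Prop := ∀ (c : Cx) (n M Kc : ℕ), 1000 ≤ n → c.Ok (√n) → (c.K : ℝ) ≤ n → (c.J : ℝ) ≤ n →
  1 ≤ M → 40000 * Real.log n ^ 2 ≤ c.h ^ 3 * c.r → 1 ≤ c.rho * c.R ^ 2 / c.r →
  (2 * (c.K ^ 2 * c.r * (c.K * c.h + c.rho) * c.De) + 20 * Real.log n ≤ M ∨
    ∃ M1 M2 : ℕ, M = M1 * M2 ∧ 4 * (c.De * c.rho * c.r) + 20 * Real.log n ≤ M1 ∧
      4 * (Nat.clog 2 (c.K + 1) * (2 * √((2 * c.h + c.rho) / c.r)) *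
        (c.K ^ 2 * c.r * (c.K * c.h + c.rho))) + 20 * Real.log n ≤ M2) →
  50 * M * Real.log n ≤ 7 / 5000 * (c.rho * c.R ^ 2 / c.r) →
  10 * Kc ≤ 7 / 5000 * (c.rho * c.R ^ 2 / c.r) →
  II (mu (√n)) (n - 2) (fun C => ind (nsep c.r c.K c.u c.v C < Kc)) ≤
    ENNReal.ofReal (1 / (n : ℝ) ^ 3)

/-- pairs in canonical position -/
def M2 : Prop := ∃ n0 : ℕ, ∀ n : ℕ, n0 ≤ n → ∀ r : ℝ, Real.log n ^ 60 ≤ r → r ≤ √n / 4000 →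
  ∀ x y, Can (√n) x y → ep n r ≤ nm (x - y) →
  II (mu (√n)) (n - 2) (fun C => ind (nsep r (Kn n r) x y C < Kcn n r)) ≤
    ENNReal.ofReal (1 / (n : ℝ) ^ 3)

/-- far pairs -/
def M3 : Prop := ∃ n0 : ℕ, ∀ n : ℕ, n0 ≤ n → ∀ r : ℝ, Real.log n ^ 60 ≤ r → r ≤ √n / 4 →
  ∀ (K Kc : ℕ) (x y : E), 1 ≤ K → (Kc : ℝ) ≤ r ^ 2 / 100 → x ∈ Sq (√n) → y ∈ Sq (√n) →
  √n / 2 ≤ nm (x - y) →
  II (mu (√n)) (n - 2) (fun C => ind (nsep r K x y C < Kc)) ≤ ENNReal.ofReal (1 / (n : ℝ) ^ 3)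

/-- large radius -/
def M4 : Prop := ∃ n0 : ℕ, ∀ n : ℕ, n0 ≤ n → ∀ r : ℝ, √n / 4000 ≤ r → r ≤ √n / 4 →
  ∀ x y, Can (√n) x y → ep n r ≤ nm (x - y) →
  II (mu (√n)) (n - 2) (fun C => ind (nsep r 1 x y C < ⌊ep n r * r / 1000⌋₊)) ≤
    ENNReal.ofReal (1 / (n : ℝ) ^ 3)

/-- all pairs -/
def M5 : Prop := ∃ n0 : ℕ, ∀ n : ℕ, n0 ≤ n → ∀ r : ℝ, Real.log n ^ 60 ≤ r → r ≤ √n / 4 →
  ∃ K Kc : ℕ, 1 ≤ Kc ∧ n / Kc ≤ Real.log n ^ 13 * XX n r ∧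
  ∀ x y, x ∈ Sq (√n) → y ∈ Sq (√n) → ep n r ≤ nm (x - y) →
  II (mu (√n)) (n - 2) (fun C => ind (nsep r K x y C < Kc)) ≤ ENNReal.ofReal (1 / (n : ℝ) ^ 3)

/-! ### F: the metric dimension -/

/-- the labels of the vertices which distinguish `i` and `j` -/
def sepl {n : ℕ} (G : SimpleGraph (Fin n)) (i j : Fin n) : Set (Fin n) :=
  {s | s ≠ i ∧ s ≠ j ∧ G.edist s i ≠ G.edist s j}

/-- hitting set -/
def F1 : Prop := ∀ (n : ℕ) (G : SimpleGraph (Fin n)) (Kc : ℕ), 2 ≤ n → 1 ≤ Kc →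
  (Pool.Agent.Helper42.MD.metricDim G : ℝ) ≤ 2 * n * Real.log n / Kc + 1 +
    {p : Fin n × Fin n | p.1 < p.2 ∧ (sepl G p.1 p.2).ncard < Kc}.ncard

/-- the configuration of the other labels -/
def oth {n : ℕ} (X : Fin n → E) (i j : Fin n) : Multiset E :=
  ((Finset.univ.erase i).erase j).val.map X

/-- separated points are separators -/
def F2 : Prop := ∀ (n K : ℕ) (r : ℝ) (X : Fin n → E) (G : SimpleGraph (Fin n)) (i j : Fin n),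
  0 ≤ r → i ≠ j → (∀ a b, G.Adj a b ↔ a ≠ b ∧ nm (X a - X b) ≤ r) →
  nsep r K (X i) (X j) (oth X i j) ≤ (sepl G i j).ncard

/-- the law of two points and the others -/
def F3 : Prop := ∀ (μ : Measure E) [IsProbabilityMeasure μ] (n : ℕ) (i j : Fin n)
  (F : E → E → Multiset E → ℝ≥0∞), i ≠ j → (Mj fun (p : E × E) (C : Multiset E) => F p.1 p.2 C) →
  (Measurable fun X : Fin n → E => F (X i) (X j) (oth X i j)) ∧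
  ∫⁻ X, F (X i) (X j) (oth X i j) ∂(Measure.pi fun _ : Fin n => μ) =
    ∫⁻ x, ∫⁻ y, II μ (n - 2) (F x y) ∂μ ∂μ

/-- the number of bad pairs -/
def bad (n : ℕ) (r : ℝ) (K Kc : ℕ) (X : Fin n → E) : ℝ≥0∞ :=
  ∑ i : Fin n, ∑ j : Fin n, ind (i < j ∧ nsep r K (X i) (X j) (oth X i j) < Kc)

/-- the expected number of bad pairs -/
def F4 : Prop := ∀ (n : ℕ) (r ε : ℝ) (K Kc : ℕ), 2 ≤ n → 0 < ε →
  (∀ x y, x ∈ Sq (√n) → y ∈ Sq (√n) → ε ≤ nm (x - y) →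
    II (mu (√n)) (n - 2) (fun C => ind (nsep r K x y C < Kc)) ≤
      ENNReal.ofReal (1 / (n : ℝ) ^ 3)) →
  Measurable (bad n r K Kc) ∧
  ∫⁻ X, bad n r K Kc X ∂(Measure.pi fun _ : Fin n => mu (√n)) ≤
    ENNReal.ofReal (2 * n * ε ^ 2 + 1)

/-- the two models of the plane -/
def F5 : Prop :=
  (∀ n : ℕ, 1 ≤ n → (Pool.Agent.Helper42.MD.law n).map (fun X i => ((X i 0, X i 1) : E)) =
    Measure.pi fun _ : Fin n => mu (√n)) ∧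
  (∀ x y : Pool.Agent.Helper42.MD.Pl, dist x y = nm ((x 0, x 1) - (y 0, y 1) : E)) ∧
  ∀ (n : ℕ) (G : SimpleGraph (Fin n)), Pool.Agent.Helper42.MD.metricDim G ≤ n

/-- the upper bound -/
def Main : Prop := ∀ r : ℕ → ℝ, (∀ᶠ n : ℕ in atTop, 1 ≤ r n ∧ r n ≤ √n / 4) →
  Tendsto (fun n : ℕ => Pool.Agent.Helper42.MD.law n {X |
    (Pool.Agent.Helper42.MD.metricDim (Pool.Agent.Helper42.MD.geo (r n) X) : ℝ) ≤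
      Real.log n ^ 72 * XX n (r n)}) atTop (𝓝 1)

end

end Pool.Agent.Helper59.RG
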